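import Pool.Agent.N641.VB.Stm3

set_option autoImplicit false

/-!
# There are countably many schemes for a finite language
-/

namespace Pool.Agent.N564.VB

open FirstOrder FirstOrder.Language Pool.Agent.N641.VB

theorem ctbl_formula {L : FirstOrder.Language.{0, 0}} (hL : Countable L.Symbols) (α : Type)
    [Finite α] : Countable (L.Formula α) := by
  have h3 : Cardinal.mk (Σ k, L.BoundedFormula α k) ≤ Cardinal.aleph0 := by
    refine BoundedFormula.card_le.trans ?_
    refine max_le le_rfl ?_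
    refine Cardinal.add_le_aleph0.2 ⟨?_, ?_⟩
    · simp only [Cardinal.lift_id]
      have : Countable α := Finite.to_countable
      exact Cardinal.mk_le_aleph0
    · simp only [Cardinal.lift_id]
      have : Countable L.Symbols := hL
      exact Cardinal.mk_le_aleph0
  have : Countable (Σ k, L.BoundedFormula α k) := Cardinal.mk_le_aleph0_iff.1 h3
  exact Function.Injective.countable (f := fun φ : L.Formula α =>
    (⟨0, φ⟩ : Σ k, L.BoundedFormula α k)) (fun a b h => by
      simpa using h)

theorem ctbl_sym (M : Type) [Finite M] : Countable (LM M).Symbols := by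
  have : Countable M := Finite.to_countable
  have : ∀ k, Countable ((LM M).Functions k) := fun k => inferInstanceAs (Countable Empty)
  have : ∀ k, Countable ((LM M).Relations k) := fun k => by
    have h1 : Function.Injective (fun R : Pool.Agent.N641.VB.Sym M k => (match R with
      | .le => none
      | .val x => some x : Option M)) := by
      intro a b h
      cases a <;> cases b <;> simp_all
    exact h1.countable
  exact inferInstanceAs (Countable ((Σ l, (LM M).Functions l) ⊕ Σ l, (LM M).Relations l))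

/-- families indexed by a finite sigma type -/
theorem ctbl_fam {S : ℕ → Type} (hS : Finite (Σ l, S l)) {X : ℕ → Type}
    (hX : ∀ l, Countable (X l)) : Countable ((l : ℕ) → S l → X l) := by
  have h1 : Function.Injective
      (fun (f : (l : ℕ) → S l → X l) (s : Σ l, S l) => (f s.1 s.2 : X s.1)) := by
    intro f g h
    funext l s
    exact congrFun h (⟨l, s⟩ : Σ l, S l)
  have h2 : Countable ((s : Σ l, S l) → X s.1) := inferInstance
  exact h1.countable

theorem CTS : S_CTS := by
  intro L hL M _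
  have hLc : Countable L.Symbols := Finite.to_countable
  have hF : Finite (Σ l, L.Functions l) :=
    Finite.of_injective (fun x => (Sum.inl x : L.Symbols)) Sum.inl_injective
  have hR : Finite (Σ l, L.Relations l) :=
    Finite.of_injective (fun x => (Sum.inr x : L.Symbols)) Sum.inr_injective
  have c1 : ∀ (α : Type) [Finite α], Countable (L.Formula α) := fun α _ => ctbl_formula hLc α
  have c2 : ∀ (α : Type) [Finite α], Countable ((LM M).Formula α) := fun α _ =>
    ctbl_formula (ctbl_sym M) α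
  let T : ℕ → ℕ → ℕ → Type := fun n n' r =>
    L.Formula (Fin n ⊕ Fin 2) × (M → L.Formula (Fin n ⊕ Fin 1)) ×
    (LM M).Formula (Fin n' ⊕ Fin r) ×
    ((l : ℕ) → L.Relations l → (LM M).Formula (Fin n' ⊕ Fin l × Fin r)) ×
    ((l : ℕ) → L.Functions l → (LM M).Formula (Fin n' ⊕ Fin (l + 1) × Fin r)) ×
    (LM M).Formula (Fin n' ⊕ Fin r ⊕ Fin 1) × (Fin n → Fin r → Fin n')
  have hT : ∀ n n' r, Countable (T n n' r) := by
    intro n n' r
    have h1 := c1 (Fin n ⊕ Fin 2)
    have h2 := c1 (Fin n ⊕ Fin 1)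
    have h3 := c2 (Fin n' ⊕ Fin r)
    have h4 := ctbl_fam hR fun l => c2 (Fin n' ⊕ Fin l × Fin r)
    have h5 := ctbl_fam hF fun l => c2 (Fin n' ⊕ Fin (l + 1) × Fin r)
    have h6 := c2 (Fin n' ⊕ Fin r ⊕ Fin 1)
    show Countable (L.Formula (Fin n ⊕ Fin 2) × (M → L.Formula (Fin n ⊕ Fin 1)) ×
      (LM M).Formula (Fin n' ⊕ Fin r) ×
      ((l : ℕ) → L.Relations l → (LM M).Formula (Fin n' ⊕ Fin l × Fin r)) ×
      ((l : ℕ) → L.Functions l → (LM M).Formula (Fin n' ⊕ Fin (l + 1) × Fin r)) ×
      (LM M).Formula (Fin n' ⊕ Fin r ⊕ Fin 1) × (Fin n → Fin r → Fin n'))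
    infer_instance
  have hS : Countable (Σ n n' r, T n n' r) := inferInstance
  let G : Sch L M → Σ n n' r, T n n' r := fun σ =>
    ⟨σ.n, σ.n', σ.r, (σ.φ, σ.ψ, σ.δ, σ.ρ, σ.γ, σ.κ, σ.π)⟩
  have hG : Function.Injective G := by
    rintro ⟨n, n', r, φ, ψ, δ, ρ, γ, κ, π⟩ ⟨m, m', s, φ', ψ', δ', ρ', γ', κ', π'⟩ h
    simp only [G, Sigma.mk.injEq] at h
    obtain ⟨rfl, h⟩ := h
    rw [heq_eq_eq, Sigma.mk.injEq] at h
    obtain ⟨rfl, h⟩ := h
    rw [heq_eq_eq, Sigma.mk.injEq] at h
    obtain ⟨rfl, h⟩ := h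
    rw [heq_eq_eq, Prod.mk.injEq, Prod.mk.injEq, Prod.mk.injEq, Prod.mk.injEq, Prod.mk.injEq,
      Prod.mk.injEq] at h
    obtain ⟨rfl, rfl, rfl, rfl, rfl, rfl, rfl⟩ := h
    rfl
  exact hG.countable

end Pool.Agent.N564.VB
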