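import Pool.Agent.N641.VB.Stm7

set_option autoImplicit false
set_option linter.all false

/-!
# Project VB (helper641), part RCB (helper564): relatively complemented distributive lattices
-/

namespace Pool.Agent.N564.VB

open FirstOrder FirstOrder.Language Pool.Agent.N641.VB

section tk

variable {L : FirstOrder.Language.{0, 0}} {U : Type} {S : L.Structure U} {α : Type}

theorem d_congr {s t : (α → U) → Prop} (h : DefP S s) (e : ∀ v, s v ↔ t v) : DefP S t := by
  have : s = t := funext fun v => propext (e v)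
  exact this ▸ h

theorem d_not (P : S_DPC) {s : (α → U) → Prop} (h : DefP S s) : DefP S (fun v => ¬ s v) :=
  (P L U S).1 α s h

theorem d_and (P : S_DPC) {s t : (α → U) → Prop} (h : DefP S s) (h' : DefP S t) :
    DefP S (fun v => s v ∧ t v) :=
  (P L U S).2.1 α s t h h'

theorem d_or (P : S_DPC) {s t : (α → U) → Prop} (h : DefP S s) (h' : DefP S t) :
    DefP S (fun v => s v ∨ t v) :=
  (P L U S).2.2.1 α s t h h'

theorem d_imp (P : S_DPC) {s t : (α → U) → Prop} (h : DefP S s) (h' : DefP S t) :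
    DefP S (fun v => s v → t v) :=
  (P L U S).2.2.2.1 α s t h h'

theorem d_ex (P : S_DPC) {s : (α → U) → U → Prop}
    (h : DefP S (fun u : α ⊕ Unit → U => s (fun a => u (Sum.inl a)) (u (Sum.inr ())))) :
    DefP S (fun v => ∃ w, s v w) := by
  have h1 := ((P L U S).2.2.2.2.2.1 α Unit _ h).1
  refine d_congr h1 fun v => ?_
  constructor
  · rintro ⟨w, hw⟩
    exact ⟨w (), hw⟩
  · rintro ⟨w, hw⟩
    exact ⟨fun _ => w, hw⟩

theorem d_all (P : S_DPC) {s : (α → U) → U → Prop}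
    (h : DefP S (fun u : α ⊕ Unit → U => s (fun a => u (Sum.inl a)) (u (Sum.inr ())))) :
    DefP S (fun v => ∀ w, s v w) := by
  have h1 := ((P L U S).2.2.2.2.2.1 α Unit _ h).2
  refine d_congr h1 fun v => ?_
  constructor
  · intro hw w
    exact hw (fun _ => w)
  · intro hw w
    exact hw (w ())

theorem d_fall (P : S_DPC) {ι : Type} [Finite ι] {s : ι → (α → U) → Prop}
    (h : ∀ i, DefP S (s i)) : DefP S (fun v => ∀ i, s i v) :=
  ((P L U S).2.2.2.2.2.2.1 α ι s h).1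

theorem d_fex (P : S_DPC) {ι : Type} [Finite ι] {s : ι → (α → U) → Prop}
    (h : ∀ i, DefP S (s i)) : DefP S (fun v => ∃ i, s i v) :=
  ((P L U S).2.2.2.2.2.2.1 α ι s h).2

theorem d_eq (P : S_DPC) (i j : α) : DefP S (fun v : α → U => v i = v j) :=
  (P L U S).2.2.2.2.2.2.2.1 α i j

theorem d_const (P : S_DPC) (i : α) (c : U) : DefP S (fun v : α → U => v i = c) :=
  (P L U S).2.2.2.2.2.2.2.2.1 α i c

theorem d_rel (P : S_DPC) (l : ℕ) (R : L.Relations l) (h : Fin l → α) :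
    DefP S (fun v : α → U => @Structure.RelMap L U S l R (fun i => v (h i))) :=
  (P L U S).2.2.2.2.2.2.2.2.2.1 α l R h

theorem d_prop (P : S_DPC) (Q : Prop) : DefP S (fun _ : α → U => Q) :=
  (P L U S).2.2.2.2.2.2.2.2.2.2.2 α Q

theorem d_par (P : S_DPC) {s : (α → U) → U → Prop} (c : U)
    (h : DefP S (fun u : α ⊕ Unit → U => s (fun a => u (Sum.inl a)) (u (Sum.inr ())))) :
    DefP S (fun v => s v c) := by
  have h1 : DefP S (fun u : α ⊕ Unit → U =>
      u (Sum.inr ()) = c ∧ s (fun a => u (Sum.inl a)) (u (Sum.inr ()))) :=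
    d_and P (d_const P (Sum.inr ()) c) h
  refine d_congr (d_ex P (s := fun v w => w = c ∧ s v w) h1) fun v => ?_
  constructor
  · rintro ⟨w, rfl, hw⟩
    exact hw
  · intro hw
    exact ⟨c, rfl, hw⟩

theorem d_ite (P : S_DPC) {c s t : (α → U) → Prop} (hc : DefP S c) (hs : DefP S s)
    (ht : DefP S t) : DefP S (fun v => (c v → s v) ∧ (¬ c v → t v)) :=
  d_and P (d_imp P hc hs) (d_imp P (d_not P hc) ht)

end tk

/-- the data of RCA in terms of the order -/
structure Dat {D B : Type} [BooleanAlgebra B] (le : D → D → Prop) (k : D → B) (e : D) : Prop where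
  inj : Function.Injective k
  bot : k e = ⊥
  ord : ∀ x y, k x ≤ k y ↔ (∀ w, le w y → le w e → le w x) ∧ (∀ w, le y w → le e w → le x w)
  cov : ∀ b, (∃ x, k x = b) ∨ ∃ x, k x = bᶜ
  dn0 : ∀ b x, b ≤ k x → ∃ y, k y = b
  sp0 : ∀ x y, ∃ z, k z = k x ⊔ k y
  dn1 : ∀ b x, b ≤ k x → le e x → ∃ y, le e y ∧ k y = b
  sp1 : ∀ x y, le e x → le e y → ∃ z, le e z ∧ k z = k x ⊔ k y
  dn2 : ∀ b x, b ≤ k x → le x e → ∃ y, le y e ∧ k y = b
  sp2 : ∀ x y, le x e → le y e → ∃ z, le z e ∧ k z = k x ⊔ k y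
  rfl : le e e
  lee : ∀ x y, le x y ↔ (∀ h, (∃ z, le e z ∧ k z = h) → h ≤ k x → h ≤ k y) ∧
    (∀ h, (∃ z, le z e ∧ k z = h) → h ≤ k y → h ≤ k x)

theorem dat (RCA : S_RCA) (D : Type) [DistribLattice D] [Countable D] [Infinite D]
    (hrc : ∀ a b c : D, a ≤ b → b ≤ c → ∃ d, b ⊓ d = a ∧ b ⊔ d = c) (e : D) :
    ∃ (B : Type) (_ : BooleanAlgebra B) (k : D → B), Countable B ∧ Infinite B ∧
      Dat (fun x y : D => x ≤ y) k e := by
  obtain ⟨B, iB, k, hc, hi, inj, bot, h1, h2, h3, h4, h5, h6, h7, h8, h9, h10⟩ := RCA D hrc e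
  refine ⟨B, iB, k, hc, hi, ?_⟩
  have C : ∀ (b : B) (z1 z2 : D), e ≤ z1 → z2 ≤ e → b ≤ k z1 → b ≤ k z2 → b = ⊥ := by
    intro b z1 z2 hz1 hz2 hb1 hb2
    obtain ⟨y1, hy1, e1⟩ := h5 b z1 hb1 hz1
    obtain ⟨y2, hy2, e2⟩ := h6 b z2 hb2 hz2
    have : y1 = y2 := inj (e1.trans e2.symm)
    subst this
    have : y1 = e := le_antisymm hy2 hy1
    rw [← e1, this, bot]
  have A1 : ∀ x (h : B), (∃ z, e ≤ z ∧ k z = h) → h ≤ k x → h ≤ k (x ⊔ e) := by
    rintro x h ⟨z, hz, rfl⟩ hx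
    rw [(h9 x).1] at hx
    refine Disjoint.left_le_of_le_sup_right hx ?_
    rw [disjoint_iff]
    exact C _ z (x ⊓ e) hz inf_le_right inf_le_left inf_le_right
  have A2 : ∀ x (h : B), (∃ z, z ≤ e ∧ k z = h) → h ≤ k x → h ≤ k (x ⊓ e) := by
    rintro x h ⟨z, hz, rfl⟩ hx
    rw [(h9 x).1, sup_comm] at hx
    refine Disjoint.left_le_of_le_sup_right hx ?_
    rw [disjoint_iff]
    exact C _ (x ⊔ e) z le_sup_right hz inf_le_right inf_le_left
  have B1 : ∀ x, k (x ⊔ e) ≤ k x := fun x => by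
    conv_rhs => rw [(h9 x).1]
    exact le_sup_left
  have B2 : ∀ x, k (x ⊓ e) ≤ k x := fun x => by
    conv_rhs => rw [(h9 x).1]
    exact le_sup_right
  refine ⟨inj, bot, ?_, h2, h3, h4, h5, ?_, h6, ?_, le_rfl, ?_⟩
  · intro x y
    rw [h1]
    constructor
    · intro h
      constructor
      · intro w hw1 hw2
        have h' : w ≤ y ⊓ e := le_inf hw1 hw2
        have h'' : y ⊓ e ≤ x := by
          conv_rhs => rw [← h]
          exact le_sup_right
        exact h'.trans h''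
      · intro w hw1 hw2
        show x ≤ w
        rw [← h]
        exact sup_le (sup_le (inf_le_right.trans hw1) (inf_le_right.trans hw2))
          (inf_le_left.trans hw1)
    · rintro ⟨ha, hb⟩
      apply le_antisymm
      · exact sup_le (sup_le inf_le_left inf_le_left) (ha (y ⊓ e) inf_le_left inf_le_right)
      · have hx : x ≤ y ⊔ e := hb (y ⊔ e) le_sup_left le_sup_right
        have : x = x ⊓ y ⊔ x ⊓ e := by rw [← inf_sup_left, inf_eq_left.2 hx]
        exact this.le.trans le_sup_left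
  · intro x y hx hy
    exact ⟨x ⊔ y, le_sup_of_le_left hx, h7 x y hx hy⟩
  · intro x y hx hy
    exact ⟨x ⊓ y, inf_le_of_left_le hx, h8 x y hx hy⟩
  · intro x y
    show x ≤ y ↔ _
    rw [h10]
    constructor
    · rintro ⟨ha, hb⟩
      exact ⟨fun h hh hx => ((A1 x h hh hx).trans ha).trans (B1 y),
        fun h hh hy => ((A2 y h hh hy).trans hb).trans (B2 x)⟩
    · rintro ⟨ha, hb⟩
      exact ⟨A1 y _ ⟨x ⊔ e, le_sup_right, rfl⟩ (ha _ ⟨x ⊔ e, le_sup_right, rfl⟩ (B1 x)),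
        A2 x _ ⟨y ⊓ e, inf_le_right, rfl⟩ (hb _ ⟨y ⊓ e, inf_le_right, rfl⟩ (B2 y))⟩

section nat

variable {B : Type} [BooleanAlgebra B]

/-- the three ideals -/
def II (le : ℕ → ℕ → Prop) (k : ℕ → B) (e : ℕ) (i : Fin 3) (b : B) : Prop :=
  ∃ x, (i = 1 → le e x) ∧ (i = 2 → le x e) ∧ k x = b

open Classical in
/-- the measure -/
noncomputable def mu (le : ℕ → ℕ → Prop) (k : ℕ → B) (e : ℕ) (b : B) : Finset (Fin 3) :=
  Finset.univ.filter fun i => ¬ II le k e i b

theorem mem_mu (le : ℕ → ℕ → Prop) (k : ℕ → B) (e : ℕ) (b : B) (i : Fin 3) :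
    i ∈ mu le k e b ↔ ¬ II le k e i b := by
  simp [mu]

/-- the monoid of the subsets of a finite set with the union -/
@[reducible] def uM (r : ℕ) : AddCommMonoid (Finset (Fin r)) where
  add := fun a b => a ∪ b
  zero := ∅
  add_assoc := fun a b c => Finset.union_assoc a b c
  zero_add := fun a => Finset.empty_union a
  add_zero := fun a => Finset.union_empty a
  add_comm := fun a b => Finset.union_comm a b
  nsmul := @nsmulRec _ ⟨∅⟩ ⟨fun a b => a ∪ b⟩

variable {le : ℕ → ℕ → Prop} {k : ℕ → B} {e : ℕ}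

theorem II0 (b : B) : II le k e 0 b ↔ ∃ x, k x = b := by
  constructor
  · rintro ⟨x, -, -, h⟩
    exact ⟨x, h⟩
  · rintro ⟨x, h⟩
    exact ⟨x, by simp, by simp, h⟩

theorem II1 (b : B) : II le k e 1 b ↔ ∃ x, le e x ∧ k x = b := by
  constructor
  · rintro ⟨x, h1, -, h⟩
    exact ⟨x, h1 rfl, h⟩
  · rintro ⟨x, h1, h⟩
    exact ⟨x, fun _ => h1, by simp, h⟩

theorem II2 (b : B) : II le k e 2 b ↔ ∃ x, le x e ∧ k x = b := by
  constructor
  · rintro ⟨x, -, h1, h⟩
    exact ⟨x, h1 rfl, h⟩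
  · rintro ⟨x, h1, h⟩
    exact ⟨x, by simp, fun _ => h1, h⟩

theorem II_bot (H : Dat le k e) (i : Fin 3) : II le k e i ⊥ :=
  ⟨e, fun _ => H.rfl, fun _ => H.rfl, H.bot⟩

theorem II_dn (H : Dat le k e) (i : Fin 3) {a b : B} (hab : a ≤ b) (hb : II le k e i b) :
    II le k e i a := by
  fin_cases i
  · obtain ⟨x, rfl⟩ := (II0 b).1 hb
    exact (II0 a).2 (H.dn0 a x hab)
  · obtain ⟨x, h, rfl⟩ := (II1 b).1 hb
    exact (II1 a).2 (H.dn1 a x hab h)
  · obtain ⟨x, h, rfl⟩ := (II2 b).1 hb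
    exact (II2 a).2 (H.dn2 a x hab h)

theorem II_sup (H : Dat le k e) (i : Fin 3) {a b : B} (ha : II le k e i a)
    (hb : II le k e i b) : II le k e i (a ⊔ b) := by
  fin_cases i
  · obtain ⟨x, rfl⟩ := (II0 a).1 ha
    obtain ⟨y, rfl⟩ := (II0 b).1 hb
    exact (II0 _).2 (H.sp0 x y)
  · obtain ⟨x, h, rfl⟩ := (II1 a).1 ha
    obtain ⟨y, h', rfl⟩ := (II1 b).1 hb
    exact (II1 _).2 (H.sp1 x y h h')
  · obtain ⟨x, h, rfl⟩ := (II2 a).1 ha
    obtain ⟨y, h', rfl⟩ := (II2 b).1 hb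
    exact (II2 _).2 (H.sp2 x y h h')

theorem am (H : Dat le k e) : @AM _ (uM 3) B _ (mu le k e) := by
  refine @AM.mk _ (uM 3) B _ _ ?_ ?_
  · show mu le k e ⊥ = (∅ : Finset (Fin 3))
    ext i
    simp only [mem_mu, Finset.notMem_empty, iff_false, not_not]
    exact II_bot H i
  · intro a b _
    show mu le k e (a ⊔ b) = mu le k e a ∪ mu le k e b
    ext i
    simp only [mem_mu, Finset.mem_union]
    have h1 : II le k e i (a ⊔ b) ↔ II le k e i a ∧ II le k e i b :=
      ⟨fun h => ⟨II_dn H i le_sup_left h, II_dn H i le_sup_right h⟩,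
        fun h => II_sup H i h.1 h.2⟩
    tauto

/-! ### definability in the lattice -/

section lat

variable {α : Type}

theorem a_le (P : S_DPC) (i j : α) : DefP (strO le) (fun v : α → ℕ => le (v i) (v j)) :=
  d_congr (d_rel (L := LO) (S := strO le) P 2 SymO.le ![i, j]) (fun v => Iff.rfl)

theorem a_lec (P : S_DPC) (i : α) (c : ℕ) : DefP (strO le) (fun v : α → ℕ => le (v i) c) :=
  d_par P (s := fun v w => le (v i) w) c (a_le P (Sum.inl i) (Sum.inr ()))

theorem a_cle (P : S_DPC) (i : α) (c : ℕ) : DefP (strO le) (fun v : α → ℕ => le c (v i)) :=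
  d_par P (s := fun v w => le w (v i)) c (a_le P (Sum.inr ()) (Sum.inl i))

theorem a_k (P : S_DPC) (H : Dat le k e) (i j : α) :
    DefP (strO le) (fun v : α → ℕ => k (v i) ≤ k (v j)) := by
  refine d_congr ?_ (fun v => (H.ord (v i) (v j)).symm)
  refine d_and P (d_all P ?_) (d_all P ?_)
  · exact d_imp P (a_le P _ _) (d_imp P (a_lec P _ _) (a_le P _ _))
  · exact d_imp P (a_le P _ _) (d_imp P (a_cle P _ _) (a_le P _ _))

theorem disj_iff (H : Dat le k e) (x y : ℕ) :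
    (∀ z, k z ≤ k x → k z ≤ k y → z = e) ↔ k x ≤ (k y)ᶜ := by
  rw [le_compl_iff_disjoint_right, disjoint_iff]
  constructor
  · intro h
    obtain ⟨z, hz⟩ := H.dn0 (k x ⊓ k y) x inf_le_left
    have : z = e := h z (hz.le.trans inf_le_left) (hz.le.trans inf_le_right)
    rw [← hz, this, H.bot]
  · intro h z hx hy
    apply H.inj
    rw [H.bot]
    exact le_bot_iff.1 ((le_inf hx hy).trans h.le)

theorem a_kc (P : S_DPC) (H : Dat le k e) (i j : α) :
    DefP (strO le) (fun v : α → ℕ => k (v i) ≤ (k (v j))ᶜ) := by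
  refine d_congr ?_ (fun v => disj_iff H (v i) (v j))
  refine d_all P ?_
  exact d_imp P (a_k P H _ _) (d_imp P (a_k P H _ _) (d_const P _ _))

theorem cov_iff (H : Dat le k e) (x y : ℕ) :
    ((∃ t, k t = ⊤) ∧ ∀ z, k z ≤ (k x)ᶜ → k z ≤ (k y)ᶜ → z = e) ↔ (k x)ᶜ ≤ k y := by
  constructor
  · rintro ⟨⟨t, ht⟩, h⟩
    obtain ⟨z, hz⟩ := H.dn0 ((k x)ᶜ ⊓ (k y)ᶜ) t (by rw [ht]; exact le_top)
    have : z = e := h z (hz.le.trans inf_le_left) (hz.le.trans inf_le_right)
    rw [this, H.bot] at hz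
    have h1 : (k x)ᶜ ≤ (k y)ᶜᶜ := le_compl_iff_disjoint_right.2 (disjoint_iff.2 hz.symm)
    rwa [compl_compl] at h1
  · intro h
    constructor
    · obtain ⟨z, hz⟩ := H.sp0 x y
      refine ⟨z, ?_⟩
      rw [hz, eq_top_iff, ← sup_compl_eq_top (x := k x)]
      exact sup_le_sup_left h _
    · intro z hx hy
      apply H.inj
      rw [H.bot]
      have := le_inf (hx.trans h) hy
      rw [inf_compl_self] at this
      exact le_bot_iff.1 this

theorem a_ck (P : S_DPC) (H : Dat le k e) (i j : α) :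
    DefP (strO le) (fun v : α → ℕ => (k (v i))ᶜ ≤ k (v j)) := by
  refine d_congr ?_ (fun v => cov_iff H (v i) (v j))
  refine d_and P (d_prop P _) (d_all P ?_)
  exact d_imp P (a_kc P H _ _) (d_imp P (a_kc P H _ _) (d_const P _ _))

theorem a_cc (P : S_DPC) (H : Dat le k e) (i j : α) :
    DefP (strO le) (fun v : α → ℕ => (k (v i))ᶜ ≤ (k (v j))ᶜ) :=
  d_congr (a_k P H j i) (fun v => compl_le_compl_iff_le.symm)

/-- the coding of the algebra -/
def ff (k : ℕ → B) (e : ℕ) (x : Fin 2 → ℕ) : B := if x 1 = e then k (x 0) else (k (x 0))ᶜ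

theorem a_ff (P : S_DPC) (H : Dat le k e) (p q : Fin 2 → α) :
    DefP (strO le) (fun v : α → ℕ => ff k e (fun j => v (p j)) ≤ ff k e (fun j => v (q j))) := by
  refine d_congr (d_ite P (d_const P (p 1) e)
    (d_ite P (d_const P (q 1) e) (a_k P H (p 0) (q 0)) (a_kc P H (p 0) (q 0)))
    (d_ite P (d_const P (q 1) e) (a_ck P H (p 0) (q 0)) (a_cc P H (p 0) (q 0)))) (fun v => ?_)
  simp only [ff]
  by_cases h1 : v (p 1) = e <;> by_cases h2 : v (q 1) = e <;> simp [h1, h2]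

theorem a_kf (P : S_DPC) (H : Dat le k e) (z : α) (q : Fin 2 → α) :
    DefP (strO le) (fun v : α → ℕ => k (v z) = ff k e (fun j => v (q j))) := by
  refine d_congr (d_ite P (d_const P (q 1) e)
    (d_and P (a_k P H z (q 0)) (a_k P H (q 0) z))
    (d_and P (a_kc P H z (q 0)) (a_ck P H (q 0) z))) (fun v => ?_)
  show _ ↔ k (v z) = if v (q 1) = e then k (v (q 0)) else (k (v (q 0)))ᶜ
  by_cases h2 : v (q 1) = e
  · rw [if_pos h2]
    exact ⟨fun h => le_antisymm (h.1 h2).1 (h.1 h2).2,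
      fun h => ⟨fun _ => ⟨h.le, h.ge⟩, fun h3 => absurd h2 h3⟩⟩
  · rw [if_neg h2]
    exact ⟨fun h => le_antisymm (h.2 h2).1 (h.2 h2).2,
      fun h => ⟨fun h3 => absurd h3 h2, fun _ => ⟨h.le, h.ge⟩⟩⟩

theorem a_If (P : S_DPC) (H : Dat le k e) (i : Fin 3) :
    DefP (strO le) (fun x : Fin 2 → ℕ => II le k e i (ff k e x)) := by
  refine d_ex P (s := fun x z => (i = 1 → le e z) ∧ (i = 2 → le z e) ∧ k z = ff k e x) ?_
  refine d_and P (d_imp P (d_prop P _) (a_cle P _ _)) (d_and P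
    (d_imp P (d_prop P _) (a_lec P _ _)) ?_)
  exact a_kf P H (Sum.inr ()) (fun j => Sum.inl j)

end lat

/-! ### definability in the algebra -/

section alg

variable {α : Type}

theorem b_le (P : S_DPC) (i j : α) :
    DefP (str (· ≤ ·) (mu le k e)) (fun v : α → B => v i ≤ v j) :=
  d_congr (d_rel (L := LM (Finset (Fin 3))) (S := str (· ≤ ·) (mu le k e)) P 2 Sym.le ![i, j])
    (fun v => Iff.rfl)

theorem b_val (P : S_DPC) (i : α) (c : Finset (Fin 3)) :
    DefP (str (· ≤ ·) (mu le k e)) (fun v : α → B => mu le k e (v i) = c) :=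
  d_congr (d_rel (L := LM (Finset (Fin 3))) (S := str (· ≤ ·) (mu le k e)) P 1 (Sym.val c) ![i])
    (fun v => Iff.rfl)

theorem b_I (P : S_DPC) (l : Fin 3) (i : α) :
    DefP (str (· ≤ ·) (mu le k e)) (fun v : α → B => II le k e l (v i)) := by
  refine d_congr (d_fex P (ι := {c : Finset (Fin 3) // l ∉ c})
    (s := fun c v => mu le k e (v i) = c.1) (fun c => b_val P i c.1)) (fun v => ?_)
  constructor
  · rintro ⟨⟨c, hc⟩, h⟩
    have h' : mu le k e (v i) = c := h
    rw [← h', mem_mu, not_not] at hc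
    exact hc
  · intro h
    exact ⟨⟨mu le k e (v i), by rw [mem_mu, not_not]; exact h⟩, rfl⟩

/-- the coding of the lattice -/
noncomputable def gg (k : ℕ → B) (x : Fin 1 → B) : ℕ := Function.invFun k (x 0)

theorem gg_k (H : Dat le k e) (s : ℕ) : Function.invFun k (k s) = s :=
  Function.leftInverse_invFun H.inj s

end alg

theorem compl_iff' (a b : B) :
    ((∀ h, h ≤ a → h ≤ b → h = ⊥) ∧ (∀ h, a ≤ h → b ≤ h → h = ⊤)) ↔ aᶜ = b := by
  constructor
  · rintro ⟨h1, h2⟩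
    refine IsCompl.compl_eq ⟨disjoint_iff.2 (h1 _ inf_le_left inf_le_right),
      codisjoint_iff.2 (h2 _ le_sup_left le_sup_right)⟩
  · rintro rfl
    constructor
    · intro h ha hb
      have := le_inf ha hb
      rw [inf_compl_self] at this
      exact le_bot_iff.1 this
    · intro h ha hb
      have := sup_le ha hb
      rw [sup_compl_eq_top] at this
      exact top_le_iff.1 this

theorem bid (P : S_DPC) (H : Dat le k e) {e' : ℕ} (hee : e' ≠ e) :
    BiD (strO le) (mu le k e) := by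
  refine ⟨2, 1, fun x => II le k e 0 (x 0), gg k, fun x => x 1 = e ∨ x 1 = e', ff k e,
    b_I P 0 0, ?_, ?_, ?_, ?_, ?_, ?_, ?_, ?_, ?_⟩
  · intro s
    exact ⟨fun _ => k s, (II0 _).2 ⟨s, rfl⟩, gg_k H s⟩
  · refine d_congr (d_and P (d_fall P (ι := Fin 2)
      (s := fun i v => II le k e 0 (v (i, (0 : Fin 1)))) (fun i => b_I P 0 (i, (0 : Fin 1))))
      (d_eq P ((0 : Fin 2), (0 : Fin 1)) ((1 : Fin 2), (0 : Fin 1)))) (fun v => ?_)
    refine and_congr_right fun hv => ?_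
    obtain ⟨x, hx⟩ := (II0 _).1 (hv 0)
    obtain ⟨y, hy⟩ := (II0 _).1 (hv 1)
    simp only [gg, ← hx, ← hy, gg_k H]
    exact ⟨fun h => H.inj h, fun h => by rw [h]⟩
  · intro l R
    cases R
    refine d_congr (d_and P (d_fall P (ι := Fin 2)
      (s := fun i v => II le k e 0 (v (i, (0 : Fin 1)))) (fun i => b_I P 0 (i, (0 : Fin 1))))
      (d_and P
        (d_all P (s := fun v h => II le k e 1 h → h ≤ v ((0 : Fin 2), (0 : Fin 1)) →
          h ≤ v ((1 : Fin 2), (0 : Fin 1))) (d_imp P (b_I P 1 _) (d_imp P (b_le P _ _)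
            (b_le P _ _))))
        (d_all P (s := fun v h => II le k e 2 h → h ≤ v ((1 : Fin 2), (0 : Fin 1)) →
          h ≤ v ((0 : Fin 2), (0 : Fin 1))) (d_imp P (b_I P 2 _) (d_imp P (b_le P _ _)
            (b_le P _ _)))))) (fun v => ?_)
    refine and_congr_right fun hv => ?_
    obtain ⟨x, hx⟩ := (II0 _).1 (hv 0)
    obtain ⟨y, hy⟩ := (II0 _).1 (hv 1)
    show _ ↔ le (gg k fun j => v (0, j)) (gg k fun j => v (1, j))
    simp only [gg, ← hx, ← hy, gg_k H, II1, II2]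
    exact (H.lee x y).symm
  · intro l F
    exact Empty.elim F
  · exact d_or P (d_const P _ _) (d_const P _ _)
  · intro b
    rcases H.cov b with ⟨x, hx⟩ | ⟨x, hx⟩
    · exact ⟨![x, e], Or.inl rfl, by simp [ff, hx]⟩
    · exact ⟨![x, e'], Or.inr rfl, by simp [ff, hx, hee]⟩
  · refine d_and P (d_fall P (ι := Fin 2)
      (s := fun i v => v (i, (1 : Fin 2)) = e ∨ v (i, (1 : Fin 2)) = e')
      (fun i => d_or P (d_const P _ _) (d_const P _ _))) ?_
    exact a_ff P H (fun j => ((0 : Fin 2), j)) (fun j => ((1 : Fin 2), j))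
  · intro c
    refine d_and P (d_or P (d_const P _ _) (d_const P _ _)) ?_
    refine d_congr (d_fall P (ι := Fin 3)
      (s := fun i x => (i ∈ c → ¬ II le k e i (ff k e x)) ∧ (¬ i ∈ c → II le k e i (ff k e x)))
      (fun i => d_and P (d_imp P (d_prop P _) (d_not P (a_If P H i)))
        (d_imp P (d_prop P _) (a_If P H i)))) (fun v => ?_)
    rw [Finset.ext_iff]
    refine forall_congr' fun i => ?_
    rw [mem_mu]
    tauto
  · refine d_congr (d_and P (d_fall P (ι := Fin 2)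
      (s := fun i (v : (Fin 2 × Fin 1) ⊕ Fin 1 → B) => II le k e 0 (v (Sum.inl (i, (0 : Fin 1)))))
      (fun i => b_I P 0 _))
      (d_and P
        (d_or P (d_const P (Sum.inl ((1 : Fin 2), (0 : Fin 1))) (k e))
          (d_const P (Sum.inl ((1 : Fin 2), (0 : Fin 1))) (k e')))
        (d_ite P (d_const P (Sum.inl ((1 : Fin 2), (0 : Fin 1))) (k e))
          (d_eq P (Sum.inl ((0 : Fin 2), (0 : Fin 1))) (Sum.inr (0 : Fin 1)))
          (d_and P
            (d_all P (s := fun v h => h ≤ v (Sum.inl ((0 : Fin 2), (0 : Fin 1))) →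
              h ≤ v (Sum.inr (0 : Fin 1)) → h = ⊥)
              (d_imp P (b_le P _ _) (d_imp P (b_le P _ _) (d_const P _ _))))
            (d_all P (s := fun v h => v (Sum.inl ((0 : Fin 2), (0 : Fin 1))) ≤ h →
              v (Sum.inr (0 : Fin 1)) ≤ h → h = ⊤)
              (d_imp P (b_le P _ _) (d_imp P (b_le P _ _) (d_const P _ _)))))))) (fun v => ?_)
    refine and_congr_right fun hv => ?_
    obtain ⟨x, hx⟩ := (II0 _).1 (hv 0)
    obtain ⟨y, hy⟩ := (II0 _).1 (hv 1)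
    simp only [gg, ff, ← hx, ← hy, gg_k H, compl_iff', H.inj.eq_iff]
    refine and_congr_right fun _ => ?_
    by_cases h : y = e <;> simp [h]

end nat

theorem fin_LO : Finite LO.Symbols := by
  have h1 : Finite (Σ l, LO.Relations l) := by
    refine Finite.of_surjective (fun _ : Unit => (⟨2, SymO.le⟩ : Σ l, LO.Relations l)) ?_
    rintro ⟨l, R⟩
    cases R
    exact ⟨(), rfl⟩
  have h2 : Finite (Σ l, LO.Functions l) := by
    refine Finite.of_injective (β := Unit) (fun _ => ()) ?_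
    rintro ⟨l, F⟩
    exact Empty.elim F
  exact inferInstanceAs (Finite ((Σ l, LO.Functions l) ⊕ Σ l, LO.Relations l))

theorem RCB (DPC : S_DPC) (BMD : S_BMD) (RCA : S_RCA) : S_RCB := by
  intro D hrc
  obtain ⟨B, iB, k, hc, hi, H⟩ := @dat RCA ℕ D _ _ hrc 0
  letI := uM 3
  exact BMD LO fin_LO (strO D.le) (Finset (Fin 3)) B (mu D.le k 0) (am H)
    (bid DPC H (e' := 1) (by norm_num))

end Pool.Agent.N564.VB
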